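import Pool.Agent.U644.EFM.Core

/-!
# Independence of `ℓ` of local Euler factors and of the monodromy

Let `p` be a prime. For a Chow motive `M` over `ℚ`, an integer `i` and a prime `ℓ ≠ p`, the
`ℓ`-adic realisation `V = V^i_ℓ(M)`, restricted to a decomposition group at `p`, gives the geometric
Frobenius `F`, the monodromy operator `N` and the finite part `r` of the action of the inertia group
(`WDRep`, with `q = p`). For `s ≥ 0` let `P_s(T) = det(1 - T F)` on the space of the vectors which are
killed by `N ^ s` and fixed by `r` (`factor`). So `P_1(T) = P^i_{p,ℓ}(M, T)` is the inverse of the local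
Euler factor, and the `P_s` for all `s` determine, for the part of `V` on which inertia acts
unipotently, the number of the Jordan blocks of `N` of each size with each Frobenius eigenvalue.

Let `E` be an elliptic curve over `ℚ` with split multiplicative reduction at `p`, and
`M(n) = M ⊗ h^1(E) ⊗ ... ⊗ h^1(E)` (`n` factors).

Theorem. (1) For every motive `M`, every `i` and every `m` these are equivalent: the local Euler
factors of `M(n)` in degree `i + n`, for all `n < m`, have rational coefficients and do not depend on
`ℓ`; the polynomials `P_s` of `V^i_ℓ(M)`, for `1 ≤ s ≤ m`, have rational coefficients and do not depend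
on `ℓ`.

(2) So Q1 (at `p`) is equivalent to the same assertion for all the `P_s` of all motives, and Q1
implies that the dimension of the kernel of every power of `N` on the part of `V^i_ℓ(M)` on which
inertia acts unipotently does not depend on `ℓ`.

(3) The recursion behind this: `P_(s+1)(T)` of `M ⊗ h^1(E)` in degree `i + 1` is
`P_(s+2)(T) P_s(p T)`, for `P_s`, `P_(s+2)` of `M` in degree `i`.

The set `Λ` of the primes `ℓ` may be any set of primes `≠ p` (for example two primes).
-/

set_option autoImplicit false

open Module Polynomial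

universe u v

open Pool.Agent.U644.EF

namespace Pool.Agent.Results.MP_a3c811_ag.FactorsDetermineMonodromy

/-- The `ℓ`-adic realisations of motives, `ℓ ∈ Λ`, restricted to a decomposition group with inertia
group `G`; `E ℓ` is the field of the coefficients (`ℚ_ℓ`). -/
structure Realisations (G Λ : Type) (E : Λ → Type u) [∀ l, Field (E l)] (q : ℕ) where
  /-- the motives -/
  Mot : Type
  /-- the product of a motive with `h^1` of the elliptic curve -/
  prodE : Mot → Mot
  /-- the realisations -/
  H : ∀ l, Mot → ℤ → WDRep.{u, v} G (E l) q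
  /-- the first cohomology of the elliptic curve -/
  U : ∀ l, WDRep.{u, v} G (E l) q
  tate : ∀ l, IsTate (U l)
  kunneth : ∀ l M i, IsTensor (H l M i) (U l) (H l (prodE M) (i + 1))

variable {G Λ : Type} {E : Λ → Type u} [∀ l, Field (E l)] [∀ l, CharZero (E l)] {q : ℕ}

/-- The motive `M(n)`. -/
def Realisations.twist (D : Realisations.{u, v} G Λ E q) (M : D.Mot) : ℕ → D.Mot
  | 0 => M
  | n + 1 => D.prodE (D.twist M n)

/-- The polynomials `P_s` of the realisations of `M` in degree `i` have rational coefficients and do
not depend on `ℓ`. For `s = 1` this is the independence of the local Euler factor. -/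
def Indep (D : Realisations.{u, v} G Λ E q) (s : ℕ) (M : D.Mot) (i : ℤ) : Prop :=
  Independent fun l => (D.H l M i).factor s

lemma indep_mul {P P' : ∀ l, (E l)[X]} (h : Independent P) (h' : Independent P') :
    Independent fun l => P l * P' l := by
  obtain ⟨Q, hQ⟩ := h
  obtain ⟨Q', hQ'⟩ := h'
  exact ⟨Q * Q', fun l => by beta_reduce; rw [hQ, hQ', Polynomial.map_mul]⟩

lemma indep_comp {P : ∀ l, (E l)[X]} (h : Independent P) (q : ℕ) :
    Independent fun l => (P l).comp (C (q : E l) * X) := by
  obtain ⟨Q, hQ⟩ := h
  exact ⟨Q.comp (C (q : ℚ) * X), fun l => by beta_reduce; rw [hQ]; simp [Polynomial.map_comp]⟩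

lemma indep_of_mul {P P' P'' : ∀ l, (E l)[X]} (h : Independent P) (h' : Independent P')
    (h0 : ∀ l, P' l ≠ 0) (he : ∀ l, P l = P'' l * P' l) : Independent P'' := by
  obtain ⟨Q, hQ⟩ := h
  obtain ⟨Q', hQ'⟩ := h'
  rcases isEmpty_or_nonempty Λ with hΛ | ⟨⟨l0⟩⟩
  · exact ⟨0, fun l => (hΛ.false l).elim⟩
  · have h1 : Q'.map (algebraMap ℚ (E l0)) ∣ Q.map (algebraMap ℚ (E l0)) :=
      ⟨P'' l0, by rw [← hQ, ← hQ', he, mul_comm]⟩
    obtain ⟨Q'', hQ''⟩ := (Polynomial.map_dvd_map' _).1 h1
    refine ⟨Q'', fun l => ?_⟩
    apply mul_right_cancel₀ (h0 l)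
    rw [← he, hQ, hQ'', Polynomial.map_mul, ← hQ', mul_comm]

lemma recursion (D : Realisations.{u, v} G Λ E q) (l : Λ) (M : D.Mot) (i : ℤ) (s : ℕ) :
    (D.H l (D.prodE M) (i + 1)).factor (s + 1) =
      (D.H l M i).factor (s + 2) * ((D.H l M i).factor s).comp (C (q : E l) * X) :=
  factor_tensor (D.tate l) (D.kunneth l M i) s

lemma comp_ne_zero (D : Realisations.{u, v} G Λ E q) (l : Λ) (M : D.Mot) (i : ℤ)
    (s : ℕ) : ((D.H l M i).factor s).comp (C (q : E l) * X) ≠ 0 := by
  intro h
  have h1 := congrArg (Polynomial.eval 0) h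
  rw [eval_comp, eval_mul, eval_X, mul_zero, eval_zero, ← coeff_zero_eq_eval_zero,
    coeff_zero_factor] at h1
  exact one_ne_zero h1

lemma indep_zero (D : Realisations.{u, v} G Λ E q) (M : D.Mot) (i : ℤ) : Indep D 0 M i :=
  ⟨1, fun l => by simp only [factor_zero, Polynomial.map_one]⟩

lemma level (D : Realisations.{u, v} G Λ E q) (M : D.Mot) (i : ℤ) (m : ℕ) :
    (∀ n < m, Indep D 1 (D.twist M n) (i + n)) ↔ ∀ s, 1 ≤ s → s ≤ m → Indep D s M i := by
  have hrec : ∀ n s, ∀ l, (D.H l (D.twist M (n + 1)) (i + (n + 1 : ℕ))).factor (s + 1) =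
      (D.H l (D.twist M n) (i + n)).factor (s + 2) *
        ((D.H l (D.twist M n) (i + n)).factor s).comp (C (q : E l) * X) := by
    intro n s l
    have := recursion D l (D.twist M n) (i + n) s
    rw [show i + ((n + 1 : ℕ) : ℤ) = i + n + 1 by push_cast; ring]
    exact this
  constructor
  · intro h
    suffices H : ∀ s n, n + s ≤ m → Indep D s (D.twist M n) (i + n) by
      intro s _ hs
      have := H s 0 (by omega)
      simpa [Realisations.twist] using this
    intro s
    induction s using Nat.strong_induction_on with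
    | _ s ih =>
      intro n hn
      match s, ih with
      | 0, _ => exact indep_zero D _ _
      | 1, _ => exact h n (by omega)
      | s + 2, ih =>
        have h1 := ih (s + 1) (by omega) (n + 1) (by omega)
        have h2 := indep_comp (ih s (by omega) n (by omega)) q
        exact indep_of_mul h1 h2 (fun l => comp_ne_zero D l _ _ s) (hrec n s)
  · intro h
    suffices H : ∀ n s, n + s ≤ m → Indep D s (D.twist M n) (i + n) by
      intro n hn
      exact H n 1 (by omega)
    intro n
    induction n with
    | zero =>
      intro s hs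
      rcases Nat.eq_zero_or_pos s with rfl | hs0
      · exact indep_zero D _ _
      · simpa [Realisations.twist] using h s hs0 (by omega)
    | succ n ih =>
      intro s hs
      match s with
      | 0 => exact indep_zero D _ _
      | s + 1 =>
        have h1 := indep_mul (ih (s + 2) (by omega)) (indep_comp (ih s (by omega)) q)
        obtain ⟨Q, hQ⟩ := h1
        exact ⟨Q, fun l => (hrec n s l).trans (hQ l)⟩

/-- Q1 at `p`: the local Euler factors of all the motives, in all degrees, are rational and
independent of `ℓ`. -/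
def Q1 (D : Realisations.{u, v} G Λ E q) : Prop := ∀ M i, Indep D 1 M i

/-- The dimension of the space on which `P_s` of `M` in degree `i` is defined. -/
noncomputable def dimension (D : Realisations.{u, v} G Λ E q) (M : D.Mot) (i : ℤ) (s : ℕ) (l : Λ) :
    ℕ := finrank (E l) ((D.H l M i).inv s)

/-- The recursion: `P_(s+1)(T)` of the product with `h^1` of the elliptic curve is
`P_(s+2)(T) P_s(p T)`. -/
def Recursion (D : Realisations.{u, v} G Λ E q) (M : D.Mot) (i : ℤ) (s : ℕ) (l : Λ) : Prop :=
  (D.H l (D.prodE M) (i + 1)).factor (s + 1) =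
    (D.H l M i).factor (s + 2) * ((D.H l M i).factor s).comp (C (q : E l) * X)

theorem result (D : Realisations.{u, v} G Λ E q) :
    (∀ (M : D.Mot) (i : ℤ) (m : ℕ), (∀ n < m, Indep D 1 (D.twist M n) (i + n)) ↔
      ∀ s, 1 ≤ s → s ≤ m → Indep D s M i) ∧
    (Q1 D ↔ ∀ s M i, Indep D s M i) ∧
    (Q1 D → ∀ M i s l l', dimension D M i s l = dimension D M i s l') ∧
    ∀ M i s l, Recursion D M i s l := by
  have h1 := fun M i m => level D M i m
  have h2 : Q1 D → ∀ s M i, Indep D s M i := by
    intro h s M i
    rcases Nat.eq_zero_or_pos s with rfl | hs0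
    · exact indep_zero D M i
    · exact (h1 M i s).1 (fun n _ => h _ _) s hs0 le_rfl
  refine ⟨h1, ⟨h2, fun h => h 1⟩, fun h M i s l l' => ?_, fun M i s l => recursion D l M i s⟩
  obtain ⟨Q, hQ⟩ := h2 h s M i
  have e : ∀ l, finrank (E l) ((D.H l M i).inv s) = Q.natDegree := by
    intro l
    have e1 : (D.H l M i).factor s = Q.map (algebraMap ℚ (E l)) := hQ l
    rw [← natDegree_factor, e1, natDegree_map_eq_of_injective (algebraMap ℚ (E l)).injective]
  unfold dimension
  rw [e, e]

end Pool.Agent.Results.MP_a3c811_ag.FactorsDetermineMonodromy
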