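import Pool.Agent.U434.LF.Main

/-!
# Independence of `ℓ` for hyperkähler varieties of all deformation types

Let `X` be a projective hyperkähler variety over a number field `K`, of any deformation type, and `p` a
prime number. We compare the `ℓ`-adic cohomology groups `H^i(X)` for all `ℓ ≠ p`, at the places `v` of `K`
above `p` where `X` may have bad reduction.

(1) Let `w` be an element of the absolute Galois group of `K` (for example of the Weil group at `v`) such
that the traces of the powers of `w` on `H²(X)`, and the cyclotomic character of `w`, are rational numbers
which do not depend on `ℓ`. Then this is also true for the trace of `w` on `H^i(X)`, for all even `i`.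

(2) It is true for all `i`, if the Kuga-Satake variety `KS(X)` is defined over `K` and the traces of the
powers of `w` on `H¹(KS(X))` are rational and independent of `ℓ` (this is known for the elements of the
Weil groups, by Grothendieck).

(3) So if the traces of the Weil group at `v` on `H²(X)` are rational and independent of `ℓ`, then the
local factors `det (1 - T Φ)` on the invariants of the inertia group in `H^i(X)` are polynomials with
rational coefficients which do not depend on `ℓ`, for all even `i` (and for all `i`, in the situation
of (2)).

The condition on `H²(X)` is known for K3 surfaces (Ochiai) and in general over a finite extension of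
`K_v` (Noot's theorem for `KS(X)`).

Idea of the proof. Fix one prime number `ℓ₀`. An open subgroup `U` of the Galois group commutes with all
operators between `H^i(X)` and the tensor powers of `H²(X)` which commute with `so(H²)`; this is proved
in `U434.SS` and `U434.KS` by weak admissibility and `H¹_g(K, ℚ_ℓ) = 0`. So on each coset `w U` the trace
on `H^i(X)` is the trace of `g B` on a sum of tensor powers of `H²(X)`, for one operator `B` which commutes
with `so(H²)`. By Weyl's theorem it is a polynomial `F`, with coefficients in the large field `Ω ℓ₀`, in
the traces of the powers of `g` on `H²(X)`. By a rational retraction of `Ω ℓ₀` we find a polynomial with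
RATIONAL coefficients with this property for the Frobenius elements `g` in `w U`. So it holds for these
Frobenius elements and all other prime numbers `ℓ`, and for all elements of `w U` and all `ℓ` by
Chebotarev and continuity. Thus the structure of the hyperkähler variety is only used at one prime
number. For (3) we use the weight-monodromy conjecture, which is a theorem of the library `N184.HK` for
these varieties: the factor is the reverse polynomial of `C / gcd (C(T), C(T / q))`, where `C` is the
characteristic polynomial of `Φ` on the part where inertia acts by the operators `exp (t N)`.
-/

set_option autoImplicit false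

namespace Pool.Agent.Results.MP_a3c811_ag.HyperkaehlerFactors

open Pool.Agent.U434.LF

/-- **Independence of `ℓ` for hyperkähler varieties.** -/
theorem result {C : Coefficients} {B : Base C} (X : Hyperkaehler B) :
    -- (1) even degrees
    (∀ w, (X.H 2).Rational w → ∀ i ≤ X.b, Even i → Indep ((X.H i).t w)) ∧
    -- (2) odd degrees
    (∀ (D : OddPart X) (w), (X.H 2).Rational w → D.A.Rational w →
      ∀ i ≤ X.b, Odd i → Indep ((X.H i).t w)) ∧
    -- (3) local factors
    ∀ v : Place C B, (∀ w, (X.H 2).Rational (v.lift w)) →
      ∀ i ≤ X.b, ∀ E : Localisation v (X.H i), E.Pure i →
        (Even i → IndepPoly E.factor) ∧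
        ∀ D : OddPart X, (∀ w, D.A.Rational (v.lift w)) → Odd i → IndepPoly E.factor :=
  haveI : Nonempty C.L := ⟨X.ℓ₀⟩
  ⟨fun _ hw _ hi he => trace_indep X hw hi he,
    fun D _ hw hA _ hi ho => trace_odd X D hw hA hi ho,
    fun v hw _ hi E hE => ⟨fun he => factor_indep E hE fun w => trace_indep X (hw w) hi he,
      fun D hA ho => factor_indep E hE fun w => trace_odd X D (hw w) (hA w) hi ho⟩⟩

end Pool.Agent.Results.MP_a3c811_ag.HyperkaehlerFactors
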