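import Pool.Agent.U548.EL.Main

/-!
# Independence of `ℓ` for local Euler factors of motives with small Chow groups

Let a prime number `p` be given. The base field `k` is `ℚ_p` (or a finite extension; `q` is the number
of elements of the residue field), for each prime number `ℓ ≠ p` we have the `ℓ`-adic cohomology
`H(X) = H^*(X_{\bar k}, \bar ℚ_ℓ)` of the smooth projective varieties `X` over `k`, with its
Weil-Deligne representation: a Frobenius `F`, the monodromy operator `N`, the projection `P` to the
invariants of the finite group through which inertia acts (`EllSystem`). The invariants of the inertia
group are the vectors with `N x = 0`, `P x = x`.

**Theorem.** Let `X` be a smooth projective variety of dimension `n` whose diagonal has a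
decomposition into cycles supported on `S × T` with `dim S + dim T ≤ n + 2` or `dim T ≤ n - 1`, and
correspondences through good varieties `Y` (for which the monodromy-weight conjecture holds and the
Künneth projectors are algebraic, for example products of curves). By the theorem of Bloch and
Srinivas this holds if the group `CH_0(X)` is supported on a surface, for example for all rationally
connected varieties, and also if it is generated by the images of the `CH_0(Y)` for good varieties `Y`
and of the zero-cycles on a surface.

Then for all motives `M = (X, e)`, all degrees `i ≤ 3` and `i ≥ 2n - 3`, and all degrees `i` if `n ≤ 4`,
the local Euler factor of `M` in degree `i` has integral coefficients and does not depend on `ℓ ≠ p`,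
at good and bad primes `p`. More generally this holds for the polynomial `det (1 - T F)` on the vectors
killed by `N ^ s`, for all `s`; so the Jordan type of `N`, together with the eigenvalues of Frobenius,
on the part on which inertia acts unipotently does not depend on `ℓ`.

In particular, all the local Euler factors of all rationally connected varieties of dimension at most
four, and of their motives, are polynomials with integral coefficients which do not depend on `ℓ`.

The proof: the monodromy-weight conjecture holds for `H^i(X)`, `i ≤ 4` (my hand-in `SmallChowGroups` of
MP_855f4c_ag), and the Künneth projectors of `X` are algebraic in the degrees `i ≤ 3`, because the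
pieces of the diagonal go through `H^0`, `H^1` of some variety, or through a surface or a good variety;
in dimension at most four there is only one further degree, the middle one. So the traces of `F ^ m P e`
on `H^i(X)` are rational and independent of `ℓ` (T. Saito), and with the monodromy-weight conjecture
they determine the Frobenius on the kernel of `N ^ s`.
-/

set_option autoImplicit false

open CategoryTheory AlgebraicGeometry

universe u v w

namespace Pool.Agent.Results.MP_a3c811_ag.SmallChowEulerFactors

open Pool.Agent.H914 Pool.Agent.U548.EL

/-- **Local Euler factors of motives with small Chow groups.** -/
theorem result {k : Type u} [Field k] {𝒱 : VarClass k} {ops : CycleOps 𝒱} {I : Type w}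
    (S : EllSystem.{u, v, w} ops I) (q : ℕ) (hS : S.Known q) (X : 𝒱.Obj)
    (hX : S.Decomposition q X) (i : ℕ) (hi : i ≤ 3 ∨ 2 * X.dim ≤ i + 3 ∨ X.dim ≤ 4) :
    S.Independent X i :=
  main_euler hS hX hi

end Pool.Agent.Results.MP_a3c811_ag.SmallChowEulerFactors
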