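import Pool.Agent.U849.SS.Weil

/-!
# Euler factors of motives with many supersingular places

Let `K` be a number field (for example `ℚ`), `V_ℓ`, for all primes `ℓ`, the `ℓ`-adic realisations of a
motive `M` over `K` in the degree `i = 2 u`, of dimension `n > 0`, and let `P_v`, with rational
coefficients, be the characteristic polynomial of the geometric Frobenius elements at the places
`v` outside a finite set `B` (Deligne; Katz and Messing). The place `v` is supersingular for `M` if
all complex roots `z` of `P_v` are products of `N(v) ^ u` and roots of unity, that is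
`z ^ k = (N(v) ^ u) ^ k` for some `k > 0`. The representations are not assumed to be semisimple.

Suppose that the upper density of the set of the supersingular places is larger than `1 - 1 / n`.
Then there are an open subgroup `U` of the Galois group, which does not depend on `ℓ` and `v`, and a
number `m > 0` such that, at every finite place `v` of `K`, of good or of bad reduction:

* the inertia group at `v` in `U` acts trivially on `V_ℓ`, for all `ℓ` which are not below `v`;
* for all elements `g` of the Weil group at `v`, with image `F_v ^ k`, `k ≥ 0`, in the Galois group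
  of the residue field (`k = 0`: inertia), the characteristic polynomial of `g` on `V_ℓ` is in `ℤ[X]` and
  does not depend on `ℓ`, and its roots are `N(v) ^ (u * k)` times `m`-th roots of unity;
* the Euler factor `det (1 - F_v T | V_ℓ ^ I_v)` is in `ℤ[T]` and does not depend on `ℓ`.

The bound `1 - 1 / n` is sharp for the first statement about the eigenvalues: for `n = 2` it is
attained by the motives of the Hecke characters of imaginary quadratic fields.

Proof. By Chebotarev's theorem for closed sets the closed set of the `g` with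
`(ρ(g) ^ M - 1) ^ n = 0`, `ρ = V_ℓ(u)`, has Haar measure larger than `1 - 1 / n`. Let `W` be a
subspace of an irreducible constituent which is minimal among the nonzero subspaces stable under
open subgroups. The elements `h` for which `W` and `h W` are isomorphic under open subgroups form
a subgroup of index at most `n`, so that it contains good elements of positive measure. Functions
of finite type which vanish on a set of positive measure vanish on a coset of an open subgroup `U`,
so that all elements of a coset `h U` are good. There are an embedding `f` of `W` commuting with `U`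
and an automorphism `c` of `W` with `ρ(h) f = f c`. So the traces of `c ρ(u)`, `u` in `U`, on `W`
are sums of roots of unity of bounded order. By Burnside's theorem the image of `U` in `GL(W)` is
finite. So the trace of `ρ` is constant on the cosets of an open subgroup; it is rational and
independent of `ℓ` by the good places, and an open subgroup of the inertia group at a bad place
acts by unipotent elements, and then trivially by the tame relation.
-/

set_option autoImplicit false

namespace Pool.Agent.Results.MP_a3c811_ag.SupersingularMotives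

open NumberField IsDedekindDomain Filter Matrix Polynomial

/-- the absolute Galois group of the field `K`, with the Krull topology -/
abbrev AbsGal (K : Type) [Field K] : Type := Gal(AlgebraicClosure K/K)

section
variable {K : Type} [Field K]

/-- `g` belongs to the inertia group at the ideal `Q` of the ring of all algebraic integers. -/
def InInertia (Q : Ideal (𝓞 (AlgebraicClosure K))) (g : AbsGal K) : Prop :=
  ∀ x : 𝓞 (AlgebraicClosure K), g • x - x ∈ Q

/-- `g` acts as `x ↦ x ^ q` modulo `Q`. If `q` is the number of elements of the residue field of the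
place below `Q` then `g` is an arithmetic Frobenius element at `Q`. -/
def FrobeniusAt (Q : Ideal (𝓞 (AlgebraicClosure K))) (q : ℕ) (g : AbsGal K) : Prop :=
  ∀ x : 𝓞 (AlgebraicClosure K), g • x - x ^ q ∈ Q

/-- `Q` is a maximal ideal of the ring of all algebraic integers which lies above the finite
place `v` of `K`. -/
def LiesAbove [NumberField K] (v : HeightOneSpectrum (𝓞 K))
    (Q : Ideal (𝓞 (AlgebraicClosure K))) : Prop :=
  Q.IsMaximal ∧ Q.comap (algebraMap (𝓞 K) (𝓞 (AlgebraicClosure K))) = v.asIdeal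

/-- the matrix of `g` -/
noncomputable def mat {F : Type} [Field F] {n : ℕ} (ρ : AbsGal K →* GL (Fin n) F) (g : AbsGal K) :
    Matrix (Fin n) (Fin n) F :=
  (ρ g : GL (Fin n) F)

/-- the vectors which are fixed by the inertia group at `Q` -/
def invariants {F : Type} [Field F] {n : ℕ} (ρ : AbsGal K →* GL (Fin n) F)
    (Q : Ideal (𝓞 (AlgebraicClosure K))) : Submodule F (Fin n → F) where
  carrier := {x | ∀ g, InInertia Q g → mat ρ g *ᵥ x = x}
  add_mem' := by
    intro x y hx hy g hg
    rw [Matrix.mulVec_add, hx g hg, hy g hg]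
  zero_mem' := by
    intro g _
    rw [Matrix.mulVec_zero]
  smul_mem' := by
    intro c x hx g hg
    rw [Matrix.mulVec_smul, hx g hg]

/-- `f` is the polynomial `det (1 - g T)` of `g` on the invariants of the inertia group at `Q`: if
`A` is the matrix of `g` with respect to a basis `b` of the invariants then `f = det (1 - A T)`. -/
def IsEulerFactor {F : Type} [Field F] {n : ℕ} (ρ : AbsGal K →* GL (Fin n) F)
    (Q : Ideal (𝓞 (AlgebraicClosure K))) (g : AbsGal K) (f : F[X]) : Prop :=
  ∃ (m : ℕ) (b : Module.Basis (Fin m) F (invariants ρ Q)) (A : Matrix (Fin m) (Fin m) F),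
    (∀ j, mat ρ g *ᵥ (b j : Fin n → F) = ∑ i, A i j • (b i : Fin n → F)) ∧
    f = (1 - (X : F[X]) • A.map C).det

end

/-- all complex roots of the polynomial `P` are products of the number `N` and roots of unity -/
def Supersingular (P : ℚ[X]) (N : ℕ) : Prop :=
  ∀ z : ℂ, (P.map (algebraMap ℚ ℂ)).IsRoot z → ∃ k : ℕ, 0 < k ∧ z ^ k = (N : ℂ) ^ k

/-- **Motives with supersingular places of density `> 1 - 1 / n`.** -/
theorem result {K : Type} [Field K] [NumberField K] {n : ℕ} (hn : 0 < n)
    (V : ∀ (ℓ : ℕ) [Fact ℓ.Prime], AbsGal K →* GL (Fin n) ℚ_[ℓ])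
    (hV : ∀ (ℓ : ℕ) [Fact ℓ.Prime], Continuous (V ℓ)) (u : ℕ)
    -- the Frobenius polynomials outside of the finite set `B`
    (B : Set (HeightOneSpectrum (𝓞 K))) (hB : B.Finite) (P : HeightOneSpectrum (𝓞 K) → ℚ[X])
    (hP : ∀ (ℓ : ℕ) [Fact ℓ.Prime], ∀ v, v ∉ B → (ℓ : 𝓞 K) ∉ v.asIdeal → ∀ Q, LiesAbove v Q →
      ∀ g, FrobeniusAt Q (Ideal.absNorm v.asIdeal) g →
        (mat (V ℓ) g⁻¹).charpoly = (P v).map (algebraMap ℚ ℚ_[ℓ]))
    -- the upper density of the supersingular places is larger than `1 - 1 / n`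
    (θ : ℝ) (hθ : θ < 1 / (n : ℝ))
    (hss : ∃ᶠ x : ℕ in atTop, ({v : HeightOneSpectrum (𝓞 K) | Ideal.absNorm v.asIdeal ≤ x ∧
      ¬ Supersingular (P v) (Ideal.absNorm v.asIdeal ^ u)}.ncard : ℝ) ≤
        θ * Nat.primeCounting x) :
    ∃ (U : Subgroup (AbsGal K)) (m : ℕ), IsOpen (U : Set (AbsGal K)) ∧ 0 < m ∧
      ∀ (v : HeightOneSpectrum (𝓞 K)) (Q : Ideal (𝓞 (AlgebraicClosure K))), LiesAbove v Q →
        -- the inertia groups
        (∀ (ℓ : ℕ) [Fact ℓ.Prime], (ℓ : 𝓞 K) ∉ v.asIdeal → ∀ g ∈ U, InInertia Q g → V ℓ g = 1) ∧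
        -- the Weil groups
        (∀ (k : ℕ) (g : AbsGal K), FrobeniusAt Q (Ideal.absNorm v.asIdeal ^ k) g⁻¹ →
          ∃ R : ℤ[X], (∀ (ℓ : ℕ) [Fact ℓ.Prime], (ℓ : 𝓞 K) ∉ v.asIdeal →
            (mat (V ℓ) g).charpoly = R.map (Int.castRingHom ℚ_[ℓ])) ∧
            ∀ z : ℂ, (R.map (Int.castRingHom ℂ)).IsRoot z →
              ∃ ζ : ℂ, ζ ^ m = 1 ∧ z = (Ideal.absNorm v.asIdeal : ℂ) ^ (u * k) * ζ) ∧
        -- the Euler factors
        (∀ g : AbsGal K, FrobeniusAt Q (Ideal.absNorm v.asIdeal) g⁻¹ →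
          ∃ R : ℤ[X], ∀ (ℓ : ℕ) [Fact ℓ.Prime], (ℓ : 𝓞 K) ∉ v.asIdeal → ∀ f : ℚ_[ℓ][X],
            IsEulerFactor (V ℓ) Q g f ↔ f = R.map (Int.castRingHom ℚ_[ℓ])) := by
  classical
  have hss' : ∃ᶠ x : ℕ in atTop, Pool.Agent.W401.Cheb.dens (fun v : HeightOneSpectrum (𝓞 K) =>
      ¬ Supersingular (P v) (Ideal.absNorm v.asIdeal ^ u)) x ≤ θ := by
    refine (hss.and_eventually (Nat.tendsto_primeCounting.eventually_gt_atTop 0)).mono ?_
    rintro N ⟨h1, h3⟩
    have h4 : (0 : ℝ) < (Nat.primeCounting N : ℝ) := by exact_mod_cast h3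
    unfold Pool.Agent.W401.Cheb.dens
    rw [div_le_iff₀ h4]
    exact h1
  obtain ⟨hmon, φ, U, hUn, hUo, hUφ, hφ⟩ := Pool.Agent.U849.SS.rat_family hn V hV u B hB P (by
      rintro ℓ _ v hv hℓ g ⟨Q, hQ, hQv, hg⟩
      exact hP ℓ v hv hℓ Q ⟨hQ, hQv⟩ g hg)
    (fun v => Supersingular (P v) (Ideal.absNorm v.asIdeal ^ u)) (fun v _ h => h) θ hθ hss'
  have hfin : Finite (AbsGal K ⧸ U) := Subgroup.quotient_finite_of_isOpen _ hUo
  have hfi : U.FiniteIndex := Subgroup.finiteIndex_of_finite_quotient
  refine ⟨U, U.index, hUo, Nat.pos_of_ne_zero hfi.index_ne_zero, ?_⟩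
  intro v Q hQ
  have hℓQ : ∀ (ℓ : ℕ), (ℓ : 𝓞 K) ∉ v.asIdeal → (ℓ : 𝓞 (AlgebraicClosure K)) ∉ Q := by
    intro ℓ hℓ h
    apply hℓ
    rw [← hQ.2, Ideal.mem_comap, map_natCast]
    exact h
  refine ⟨?_, ?_, ?_⟩
  · intro ℓ _ hℓ g hgU hg
    exact Pool.Agent.U849.SS.inert (V ℓ) (hV ℓ) u φ U hUn hUo hUφ (hφ ℓ) v Q hQ.1 hQ.2 hℓ hgU hg
  · intro k g hg
    obtain ⟨R, hR, hz⟩ := Pool.Agent.U849.SS.weil V u φ U hUn hUo hUφ hφ hQ.1 hg
    rw [inv_inv] at hR
    refine ⟨R, fun ℓ _ hℓ => hR ℓ (hℓQ ℓ hℓ), ?_⟩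
    intro z h
    have h1 := hz z h
    have hN0 : Ideal.absNorm v.asIdeal ≠ 0 := fun h0 => v.ne_bot (Ideal.absNorm_eq_zero_iff.1 h0)
    have hs0 : ((Ideal.absNorm v.asIdeal : ℂ) ^ (u * k)) ≠ 0 := by
      apply pow_ne_zero
      exact_mod_cast hN0
    have h2 : (((Ideal.absNorm v.asIdeal ^ k : ℕ) : ℂ)) ^ u =
        (Ideal.absNorm v.asIdeal : ℂ) ^ (u * k) := by
      rw [Nat.cast_pow, ← pow_mul, mul_comm k u]
    refine ⟨z / (Ideal.absNorm v.asIdeal : ℂ) ^ (u * k), ?_, ?_⟩
    · rw [div_pow, h1, h2, div_self (pow_ne_zero _ hs0)]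
    · rw [mul_div_cancel₀ _ hs0]
  · intro g hg
    have hq : 2 ≤ Ideal.absNorm v.asIdeal := by
      have h0 : Ideal.absNorm v.asIdeal ≠ 0 := fun h0 => v.ne_bot (Ideal.absNorm_eq_zero_iff.1 h0)
      have h1 : Ideal.absNorm v.asIdeal ≠ 1 := fun h1 =>
        v.isPrime.ne_top (Ideal.absNorm_eq_one_iff.1 h1)
      omega
    have hI : ∀ (ℓ : ℕ) [Fact ℓ.Prime] (x : Fin n → ℚ_[ℓ]), x ∈ invariants (V ℓ) Q ↔
        ∀ τ, Pool.Agent.W569.FM.InInertia Q τ → Pool.Agent.R401.Img.mt (V ℓ) τ *ᵥ x = x :=
      fun ℓ _ x => Iff.rfl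
    obtain ⟨R, hR⟩ := Pool.Agent.R401.Tr6.loc V hV u φ U hUn hUo hUφ hφ hQ.1 hq hg
      (fun ℓ _ => invariants (V ℓ) Q) hI
    rw [inv_inv] at hR
    refine ⟨R, ?_⟩
    intro ℓ _ hℓ f
    constructor
    · rintro ⟨m, b, A, hA, rfl⟩
      exact hR ℓ (hℓQ ℓ hℓ) m b A hA
    · rintro rfl
      obtain ⟨m, b, A, hA⟩ := Pool.Agent.R401.Tr6.exists_basis (V ℓ) hq hg (hI ℓ)
      rw [inv_inv] at hA
      exact ⟨m, b, A, hA, (hR ℓ (hℓQ ℓ hℓ) m b A hA).symm⟩

end Pool.Agent.Results.MP_a3c811_ag.SupersingularMotives
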